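import Pool.Agent.W2helper5.TB.Defs
import Pool.Agent.N858.PC.Gordan

/-!
# Toric bundles over quotients of complex tori: the convexity argument
-/

set_option autoImplicit false

namespace Pool.Agent.W2helper5.TB

open Pool.Agent.W594.SYZ2 Pool.Agent.R800.UA Pool.Agent.R800.UB

theorem dot_add {k : ℕ} (a b c : Fin k → ℤ) : dot (a + b) c = dot a c + dot b c := by
  simp only [dot, Pi.add_apply, add_mul, Finset.sum_add_distrib]

theorem dot_sub {k : ℕ} (a b c : Fin k → ℤ) : dot (a - b) c = dot a c - dot b c := by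
  simp only [dot, Pi.sub_apply, sub_mul, Finset.sum_sub_distrib]

theorem dot_nsmul {k : ℕ} (n : ℕ) (a c : Fin k → ℤ) : dot (n • a) c = n * dot a c := by
  simp only [dot, Pi.smul_apply, nsmul_eq_mul, Finset.mul_sum, mul_assoc]

theorem dot_neg {k : ℕ} (a c : Fin k → ℤ) : dot (-a) c = - dot a c := by
  simp only [dot, Pi.neg_apply, neg_mul, Finset.sum_neg_distrib]

/-- Common denominators. -/
theorem common_den {ι : Type*} [Fintype ι] (c : ι → ℚ) :
    ∃ D : ℕ, 0 < D ∧ ∀ i, ∃ z : ℤ, (D : ℚ) * c i = z := by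
  classical
  refine ⟨∏ i, (c i).den, Finset.prod_pos fun i _ => (c i).den_pos, fun i => ?_⟩
  refine ⟨(∏ j ∈ Finset.univ.erase i, ((c j).den : ℤ)) * (c i).num, ?_⟩
  rw [← Finset.mul_prod_erase Finset.univ _ (Finset.mem_univ i)]
  push_cast
  have h1 : ((c i).den : ℚ) * c i = (c i).num := by
    rw [mul_comm]
    exact Rat.mul_den_eq_num (c i)
  calc ((c i).den : ℚ) * (∏ x ∈ Finset.univ.erase i, ((c x).den : ℚ)) * c i
      = (∏ x ∈ Finset.univ.erase i, ((c x).den : ℚ)) * (((c i).den : ℚ) * c i) := by ring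
    _ = _ := by rw [h1]

section

variable {V : Type*} [NormedAddCommGroup V] [NormedSpace ℂ V] {Γ : Subgroup (V ≃ᵃ[ℂ] V)}

omit [NormedAddCommGroup V] [NormedSpace ℂ V] in
theorem ordAt_le {k : ℕ} (β : (Fin k → ℤ) →₀ (V → ℂ)) (a : Fin k → ℤ) {χ : Fin k → ℤ}
    (h : χ ∈ β.support) : ordAt β a ≤ dot χ a := by
  refine csInf_le ?_ ⟨χ, h, rfl⟩
  exact (β.support.finite_toSet.image _).bddBelow

omit [NormedAddCommGroup V] [NormedSpace ℂ V] in
theorem exists_ordAt {k : ℕ} {β : (Fin k → ℤ) →₀ (V → ℂ)} (hβ : β ≠ 0) (a : Fin k → ℤ) :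
    ∃ χ ∈ β.support, ordAt β a = dot χ a := by
  have hne : ((fun χ => dot χ a) '' (β.support : Set (Fin k → ℤ))).Nonempty := by
    obtain ⟨χ, hχ⟩ := Finsupp.support_nonempty_iff.2 hβ
    exact ⟨_, χ, hχ, rfl⟩
  have hb := (β.support.finite_toSet.image (fun χ => dot χ a)).bddBelow
  obtain ⟨χ, h1, h2⟩ := Int.csInf_mem hne hb
  exact ⟨χ, h1, h2.symm⟩

/-- The value of a linear form on a cone. -/
theorem dot_le_of_cone {k : ℕ} {ι : Type*} {r : ι → Fin k → ℤ} {s : Finset ι} {a : Fin k → ℤ}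
    (ha : (fun j => (a j : ℝ)) ∈ Cone r s) {χ χ' : Fin k → ℤ}
    (h : ∀ i ∈ s, dot χ (r i) ≤ dot χ' (r i)) : dot χ a ≤ dot χ' a := by
  obtain ⟨c, hc, hca⟩ := ha
  have key : ∀ χ : Fin k → ℤ, ((dot χ a : ℤ) : ℝ) = ∑ i ∈ s, c i * (dot χ (r i) : ℝ) := by
    intro χ
    simp only [dot]
    push_cast
    calc ∑ j, (χ j : ℝ) * (a j : ℝ) = ∑ j, (χ j : ℝ) * ∑ i ∈ s, c i * (r i j : ℝ) :=
          Finset.sum_congr rfl fun j _ => by rw [← hca j]
      _ = ∑ i ∈ s, c i * ∑ j, (χ j : ℝ) * (r i j : ℝ) := by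
          simp only [Finset.mul_sum]
          rw [Finset.sum_comm]
          refine Finset.sum_congr rfl fun i _ => Finset.sum_congr rfl fun j _ => ?_
          ring
  have h1 : ((dot χ a : ℤ) : ℝ) ≤ ((dot χ' a : ℤ) : ℝ) := by
    rw [key, key]
    refine Finset.sum_le_sum fun i hi => mul_le_mul_of_nonneg_left ?_ (hc i)
    exact_mod_cast h i hi
  exact_mod_cast h1

variable {k : ℕ} {ι : Type*} {r : ι → Fin k → ℤ} {S : Finset (Finset ι)} {M : Fin k → WeilClass Γ}
  {ρ : V → ℂ}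

/-- The weights `u s` are rational convex combinations of the exponents `χ` with `β χ ≠ 0`. -/
theorem convex (hS : IsCompleteFan r S) (P : CartierPair r S M ρ) (hLC : P.IsToricLC)
    (hf : ∀ s ∈ S, ∀ i, P.m - P.c i + ordAt P.β (r i) ≤ dot (P.u s) (r i)) {s : Finset ι}
    (hs : s ∈ S) :
    ∃ n : P.β.support → ℕ, 1 ≤ ∑ χ, n χ ∧
      ∀ i, ∑ χ, (n χ : ℤ) * (χ : Fin k → ℤ) i = (∑ χ, n χ : ℕ) * P.u s i := by
  classical
  rcases Pool.Agent.N858.PC.gordan (V := Fin k → ℚ)
    (fun χ : P.β.support => fun i => (((χ : Fin k → ℤ) i - P.u s i : ℤ) : ℚ)) with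
    ⟨c, hc0, hcne, hc⟩ | ⟨f, hf1⟩
  · obtain ⟨D, hD, hz⟩ := common_den c
    choose z hz using hz
    have hz0 : ∀ χ, 0 ≤ z χ := by
      intro χ
      have h1 : (0 : ℚ) ≤ z χ := by
        rw [← hz]
        exact mul_nonneg (Nat.cast_nonneg _) (hc0 χ)
      exact_mod_cast h1
    have hzn : ∀ χ, ((z χ).toNat : ℤ) = z χ := fun χ => Int.toNat_of_nonneg (hz0 χ)
    have hDq : (0 : ℚ) < D := by exact_mod_cast hD
    refine ⟨fun χ => (z χ).toNat, ?_, fun i => ?_⟩
    · by_contra hcon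
      have h0 : ∑ χ, (z χ).toNat = 0 := Nat.lt_one_iff.1 (not_le.1 hcon)
      apply hcne
      funext χ
      have h1 : (z χ).toNat = 0 := (Finset.sum_eq_zero_iff.1 h0) χ (Finset.mem_univ χ)
      have h2 : z χ = 0 := by rw [← hzn χ, h1]; rfl
      have h3 := hz χ
      rw [h2, Int.cast_zero] at h3
      exact (mul_eq_zero.1 h3).resolve_left hDq.ne'
    · have h1 := congrFun hc i
      rw [Finset.sum_apply] at h1
      simp only [Pi.smul_apply, smul_eq_mul, Pi.zero_apply] at h1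
      have h2 : ∑ χ : P.β.support, (z χ : ℚ) * (((χ : Fin k → ℤ) i - P.u s i : ℤ) : ℚ) = 0 := by
        calc ∑ χ : P.β.support, (z χ : ℚ) * (((χ : Fin k → ℤ) i - P.u s i : ℤ) : ℚ)
            = D * ∑ χ : P.β.support, c χ * (((χ : Fin k → ℤ) i - P.u s i : ℤ) : ℚ) := by
              rw [Finset.mul_sum]
              refine Finset.sum_congr rfl fun χ _ => ?_
              rw [← hz, mul_assoc]
          _ = 0 := by rw [h1, mul_zero]
      have h3 : ∑ χ : P.β.support, z χ * ((χ : Fin k → ℤ) i - P.u s i) = 0 := by exact_mod_cast h2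
      simp only [mul_sub, Finset.sum_sub_distrib, ← Finset.sum_mul] at h3
      push_cast
      simp only [hzn]
      linarith
  · exfalso
    -- the integral vector
    obtain ⟨D, hD, hz⟩ := common_den (fun j : Fin k => f (Pi.single j 1))
    choose a ha using hz
    have hDq : (0 : ℚ) < D := by exact_mod_cast hD
    have hpos : ∀ χ ∈ P.β.support, dot (P.u s) a < dot χ a := by
      intro χ hχ
      have h1 := hf1 ⟨χ, hχ⟩
      have h2 : f (fun i => ((χ i - P.u s i : ℤ) : ℚ)) =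
          ∑ j, ((χ j - P.u s j : ℤ) : ℚ) * f (Pi.single j 1) := by
        have h3 : (fun i => ((χ i - P.u s i : ℤ) : ℚ)) =
            ∑ j, ((χ j - P.u s j : ℤ) : ℚ) • (Pi.single j 1 : Fin k → ℚ) := by
          funext i
          rw [Finset.sum_apply]
          simp [Pi.single_apply]
        rw [h3, map_sum]
        simp only [map_smul, smul_eq_mul]
      have h4 : (D : ℚ) * f (fun i => ((χ i - P.u s i : ℤ) : ℚ)) =
          (((dot χ a - dot (P.u s) a : ℤ)) : ℚ) := by
        rw [h2, Finset.mul_sum, ← dot_sub]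
        simp only [dot, Pi.sub_apply]
        push_cast
        refine Finset.sum_congr rfl fun j _ => ?_
        rw [← ha j]
        ring
      have h5 : (0 : ℚ) < (((dot χ a - dot (P.u s) a : ℤ)) : ℚ) := by
        rw [← h4]
        exact mul_pos hDq h1
      have h6 : 0 < dot χ a - dot (P.u s) a := by exact_mod_cast h5
      linarith
    obtain ⟨t, ht, hat⟩ := hS.complete (fun j => (a j : ℝ))
    have h1 := hLC t ht a hat
    obtain ⟨χ, hχ, hχa⟩ := exists_ordAt P.β_ne a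
    have h2 : dot (P.u t) a ≤ dot (P.u s) a := by
      refine dot_le_of_cone hat fun i hi => ?_
      rw [P.cartier t ht i hi]
      exact hf s hs i
    have h3 := hpos χ hχ
    rw [hχa] at h1
    linarith

end

end Pool.Agent.W2helper5.TB
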