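import Pool.Agent.R800.UB.LogDefs
import Mathlib.Data.Finsupp.Basic
import Mathlib.Order.Interval.Set.Basic

/-!
# Toric bundles over quotients of complex tori, and log pairs on them: definitions

`Y = V / Γ` is the quotient of a complex torus by a finite group. The group `Γ` acts on
`V × (ℂ^*) ^ k` by `γ (v, t) = (γ v, (e_1 t_1, ..., e_k t_k))`, `e_i = (M i).e γ v`, and this action
extends to `V × X_Σ` for every toric variety `X_Σ` with the torus `(ℂ^*) ^ k`. The toric bundle is the
quotient `X = (V × X_Σ) / Γ`.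
-/

set_option autoImplicit false

namespace Pool.Agent.W2helper5.TB

open Pool.Agent.W594.SYZ2 Pool.Agent.R800.UA Pool.Agent.R800.UB

/-- The pairing of `ℤ ^ k` with its dual. -/
def dot {k : ℕ} (a b : Fin k → ℤ) : ℤ := ∑ i, a i * b i

/-- The real cone generated by the integral vectors `r i`, `i ∈ s`. -/
def Cone {k : ℕ} {ι : Type*} (r : ι → Fin k → ℤ) (s : Finset ι) : Set (Fin k → ℝ) :=
  {x | ∃ c : ι → ℝ, (∀ i, 0 ≤ c i) ∧ ∀ j, x j = ∑ i ∈ s, c i * (r i j : ℝ)}

/-- The `r i` are the primitive generators of the rays of a complete fan in `ℝ ^ k`, whose maximal cones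
are generated by the `r i`, `i ∈ s`, for the sets `s` of the family `S`. -/
structure IsCompleteFan {k : ℕ} {ι : Type*} (r : ι → Fin k → ℤ) (S : Finset (Finset ι)) : Prop where
  /-- the generators are primitive vectors (in particular not zero) -/
  primitive : ∀ i, ∀ d : ℕ, (∀ j, (d : ℤ) ∣ r i j) → d = 1
  /-- each ray belongs to some cone -/
  used : ∀ i, ∃ s ∈ S, i ∈ s
  /-- the cones of the family `S` are of full dimension -/
  full : ∀ s ∈ S, ∀ χ : Fin k → ℤ, (∀ i ∈ s, dot χ (r i) = 0) → χ = 0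
  /-- the cones contain no lines -/
  pointed : ∀ s ∈ S, ∃ χ : Fin k → ℤ, ∀ i ∈ s, 0 < dot χ (r i)
  /-- the generators span faces of dimension one -/
  ray : ∀ s ∈ S, ∀ i ∈ s, ∃ χ : Fin k → ℤ, (∀ j ∈ s, 0 ≤ dot χ (r j)) ∧
    ∀ j ∈ s, dot χ (r j) = 0 ↔ j = i
  /-- the intersection of two cones is a face of both of them, generated by the common generators -/
  face : ∀ s ∈ S, ∀ t ∈ S, ∃ χ : Fin k → ℤ, (∀ i ∈ s, 0 ≤ dot χ (r i)) ∧
    (∀ i ∈ t, dot χ (r i) ≤ 0) ∧ ∀ i, i ∈ s ∨ i ∈ t → (dot χ (r i) = 0 ↔ i ∈ s ∧ i ∈ t)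
  /-- the cones cover `ℝ ^ k` -/
  complete : ∀ x : Fin k → ℝ, ∃ s ∈ S, x ∈ Cone r s

/-- A point `x` of the affine toric variety `U_s` of the cone generated by the `r i`, `i ∈ s`: a
homomorphism of the monoid of the `χ` with `⟨χ, r i⟩ ≥ 0` for `i ∈ s` to the multiplicative monoid `ℂ`
(`x χ` is the value of the regular function `t ^ χ` at the point; the values for other `χ` are
irrelevant). -/
structure ChartPoint {k : ℕ} {ι : Type*} (r : ι → Fin k → ℤ) (s : Finset ι) where
  x : (Fin k → ℤ) → ℂ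
  one : x 0 = 1
  mul : ∀ χ χ' : Fin k → ℤ, (∀ i ∈ s, 0 ≤ dot χ (r i)) → (∀ i ∈ s, 0 ≤ dot χ' (r i)) →
    x (χ + χ') = x χ * x χ'

section

variable {V : Type*} [NormedAddCommGroup V] [NormedSpace ℂ V] {Γ : Subgroup (V ≃ᵃ[ℂ] V)}

theorem diff_prod {ι : Type*} (s : Finset ι) (f : ι → V → ℂ) (h : ∀ i ∈ s, Differentiable ℂ (f i)) :
    Differentiable ℂ fun v => ∏ i ∈ s, f i v := by
  classical
  induction s using Finset.induction_on with
  | empty => simp only [Finset.prod_empty]; exact differentiable_const _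
  | insert a s ha ih =>
    simp only [Finset.prod_insert ha]
    exact (h a (Finset.mem_insert_self a s)).mul (ih fun i hi => h i (Finset.mem_insert_of_mem hi))

/-- The divisor class `N - χ_1 M_1 - ... - χ_k M_k` on `Y = V / Γ`. -/
noncomputable def twist {k : ℕ} (N : WeilClass Γ) (M : Fin k → WeilClass Γ) (χ : Fin k → ℤ) :
    WeilClass Γ where
  e := fun γ v => N.e γ v * ∏ i, (M i).e γ v ^ (-χ i)
  holo := fun γ => (N.holo γ).mul (diff_prod _ _ fun i _ v =>
    ((M i).holo γ v).zpow (Or.inl ((M i).ne_zero γ v)))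
  ne_zero := fun γ v => mul_ne_zero (N.ne_zero γ v)
    (Finset.prod_ne_zero_iff.2 fun i _ => zpow_ne_zero _ ((M i).ne_zero γ v))
  mul := fun γ δ v => by
    rw [N.mul, mul_mul_mul_comm, ← Finset.prod_mul_distrib]
    congr 1
    refine Finset.prod_congr rfl fun i _ => ?_
    rw [(M i).mul, mul_zpow]

/-- The hermitian form `HN - χ_1 HM_1 - ... - χ_k HM_k`. -/
def twistForm {k : ℕ} (HN : V → V → ℂ) (HM : Fin k → V → V → ℂ) (χ : Fin k → ℤ) : V → V → ℂ :=
  fun v w => HN v w - ∑ i, (χ i : ℂ) * HM i v w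

/-- If an element of `Γ` fixes all points of a hyperplane of `V` then it acts trivially on the fibres
over them. So `V × X_Σ → X` is ramified exactly over the mirrors of `Γ`, with the same indices as
`V → Y`. (This is no condition if `Γ` contains no reflections, and it is true if the `M i` are line
bundles on `Y`, that is if `X → Y` is locally trivial.) -/
def TrivialOnMirrors {k : ℕ} (M : Fin k → WeilClass Γ) : Prop :=
  ∀ (γ : Γ) (ℓ : V →ₗ[ℂ] ℂ) (c : ℂ), ℓ ≠ 0 → (∀ w, ℓ w = c → (γ : V ≃ᵃ[ℂ] V) w = w) →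
    ∀ i w, ℓ w = c → (M i).e γ w = 1

/-- The order of the Laurent polynomial `∑ χ, β χ (v) t ^ χ` along the toric divisor which corresponds
to the integral vector `a`: the minimum of the `⟨χ, a⟩`, over all `χ` with `β χ ≠ 0`. -/
noncomputable def ordAt {k : ℕ} (β : (Fin k → ℤ) →₀ (V → ℂ)) (a : Fin k → ℤ) : ℤ :=
  sInf ((fun χ => dot χ a) '' (β.support : Set (Fin k → ℤ)))

/-- An effective `ℚ`-divisor `B` on the toric bundle `X = (V × X_Σ) / Γ` and a Cartier multiple
`m (K_X + B)`.

The pull back of `m B` to `V × X_Σ` is the closure of the divisor of the Laurent polynomial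
`F = ∑ χ, β χ (v) t ^ χ` on `V × (ℂ^*) ^ k` (with entire coefficients) plus `∑ i, c i D_i`, where `D_i` is
the toric divisor given by the ray `r i`. The entire function `ρ` defines the ramification divisor of
`V × X_Σ → X`, which is the preimage of a divisor on `V`.

The local sections of `O_X(m (K_X + B))` are the `m`-canonical forms
`g ρ ^ m F⁻¹ ((dv) (dt / t)) ^ m` which are invariant under `Γ`; `N` is the factor of automorphy of these
functions `g`, so `g (γ (v, t)) = N.e γ v * g (v, t)`. That it is one is the condition `equivariant`: it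
says that `β χ` defines an effective divisor on `Y` in the class of `N - χ M - m K_Y`. On the affine
chart `V × U_s` the line bundle `O_X(m (K_X + B))` is generated by the form with `g = t ^ (u s)`
(`cartier`; `ordAt β (r i)` is the order of `F` along `D_i`). -/
structure CartierPair {k : ℕ} {ι : Type*} (r : ι → Fin k → ℤ) (S : Finset (Finset ι))
    (M : Fin k → WeilClass Γ) (ρ : V → ℂ) where
  m : ℕ
  one_le_m : 1 ≤ m
  β : (Fin k → ℤ) →₀ (V → ℂ)
  holo : ∀ χ, Differentiable ℂ (β χ)
  β_ne : β ≠ 0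
  c : ι → ℕ
  N : WeilClass Γ
  equivariant : ∀ χ, IsLogPluri (twist N M χ) m ρ (β χ)
  u : Finset ι → Fin k → ℤ
  cartier : ∀ s ∈ S, ∀ i ∈ s, dot (u s) (r i) = m - c i + ordAt β (r i)

namespace CartierPair

variable {k : ℕ} {ι : Type*} {r : ι → Fin k → ℤ} {S : Finset (Finset ι)} {M : Fin k → WeilClass Γ}
  {ρ : V → ℂ}

/-- `(X, B)` is log canonical along the toric divisors over `X`. For a primitive integral vector `a` in
the cone `s` the log discrepancy along the toric divisor over `X` which is given by `a` is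
`(⟨u s, a⟩ - ordAt β a) / m`. For the `D_i` themselves it is `(m - c i) / m`. -/
def IsToricLC (P : CartierPair r S M ρ) : Prop :=
  ∀ s ∈ S, ∀ a : Fin k → ℤ, (fun j => (a j : ℝ)) ∈ Cone r s → ordAt P.β a ≤ dot (P.u s) a

/-- `K_X + B` is nef, where `HN`, `HM i` are the Chern forms of `N`, `M i`: it is nef on the fibres of
`X → Y` (`fibre`: `t ^ (u s)` is a section of the line bundle on the fibre, for each maximal cone `s`) and
on the images in `X` of the sections `V → V × X_Σ` given by the torus fixed points (`fixed`: the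
restriction to the section given by `s` is `N - u s M`, and it is nef if its Chern form is positive
semidefinite). This is what nefness means on `X`: the condition is clearly necessary, and if it is true
then `- log ∑ s, |t ^ (u s)| ^ 2 h_s` is the weight of a metric of semipositive curvature, `h_s` such a
metric on `N - u s M`. -/
structure IsNef (P : CartierPair r S M ρ) (HN : V → V → ℂ) (HM : Fin k → V → V → ℂ) : Prop where
  fibre : ∀ s ∈ S, ∀ i, P.m - P.c i + ordAt P.β (r i) ≤ dot (P.u s) (r i)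
  fixed : ∀ s ∈ S, IsNefForm (twistForm HN HM (P.u s))

/-- `∑ χ, G χ (v) t ^ χ` is a section of `O_X(j m (K_X + B))`. The corresponding `j m`-canonical form is
`(∑ χ, G χ t ^ χ) ρ ^ (j m) F ^ (- j) ((dv) (dt / t)) ^ (j m)` with `F = ∑ χ, β χ t ^ χ`; `order` says
that it is regular along the `D_i`. -/
structure IsSection (P : CartierPair r S M ρ) (j : ℕ) (G : (Fin k → ℤ) →₀ (V → ℂ)) : Prop where
  holo : ∀ χ, Differentiable ℂ (G χ)
  eq : ∀ (χ : Fin k → ℤ) (γ : Γ) (v : V), G χ ((γ : V ≃ᵃ[ℂ] V) v) =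
    (P.N.e γ v ^ j * ∏ i, (M i).e γ v ^ (-χ i)) * G χ v
  order : ∀ χ ∈ G.support, ∀ i, j * (P.m - P.c i + ordAt P.β (r i)) ≤ dot χ (r i)

/-- The value of the section at the point `(v, x)` of `V × U_s`, in the trivialisation by
`t ^ (j u s)`. -/
noncomputable def value (P : CartierPair r S M ρ) (j : ℕ) (G : (Fin k → ℤ) →₀ (V → ℂ))
    {s : Finset ι} (v : V) (x : ChartPoint r s) : ℂ :=
  G.sum fun χ g => g v * x.x (χ - j • P.u s)

/-- `j m (K_X + B)` is Cartier on `X` (the stabilisers act trivially on the fibres of the corresponding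
line bundle on `V × X_Σ`) and base point free. -/
structure BasePointFree (P : CartierPair r S M ρ) (j : ℕ) : Prop where
  stab : ∀ s ∈ S, ∀ (γ : Γ) (v : V), (γ : V ≃ᵃ[ℂ] V) v = v → (twist P.N M (P.u s)).e γ v ^ j = 1
  free : ∀ s ∈ S, ∀ (v : V) (x : ChartPoint r s), ∃ G, P.IsSection j G ∧ P.value j G v x ≠ 0

end CartierPair

end

end Pool.Agent.W2helper5.TB
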