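import Pool.Agent.W2helper5.TB.Comb
import Pool.Agent.R800.UB.Log
import Pool.Agent.TH735.AQ.Mero

/-!
# Abundance on toric bundles over quotients of complex tori
-/

set_option autoImplicit false

namespace Pool.Agent.W2helper5.TB

open Pool.Agent.W594.SYZ2 Pool.Agent.W594.SYZ2.TQ Pool.Agent.TH735.AQ Pool.Agent.R893.TQ
open Pool.Agent.R800.UA Pool.Agent.R800.UB

variable {V : Type*} [NormedAddCommGroup V] [NormedSpace ℂ V] {Γ : Subgroup (V ≃ᵃ[ℂ] V)}

/-- The Chern form of a twist. -/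
theorem twist_chern {k : ℕ} {N : WeilClass Γ} {M : Fin k → WeilClass Γ} {HN : V → V → ℂ}
    {HM : Fin k → V → V → ℂ} (hN : N.HasChernForm HN) (hM : ∀ i, (M i).HasChernForm (HM i))
    (χ : Fin k → ℤ) : (twist N M χ).HasChernForm (twistForm HN HM χ) := by
  obtain ⟨hH, F, hF, hFe⟩ := hN
  choose hHM FM hFM hFMe using hM
  refine ⟨⟨fun u v w => ?_, fun a v w => ?_, fun v w => ?_⟩,
    fun v => F v + -∑ i, (χ i : ℂ) * FM i v, hF.add ?_, fun γ v => ?_⟩
  · simp only [twistForm]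
    rw [hH.add_left]
    simp only [(hHM _).add_left, mul_add, Finset.sum_add_distrib]
    ring
  · simp only [twistForm]
    rw [hH.smul_left]
    simp only [(hHM _).smul_left]
    rw [mul_sub, Finset.mul_sum]
    congr 1
    refine Finset.sum_congr rfl fun i _ => ?_
    ring
  · simp only [twistForm]
    rw [map_sub, map_sum, ← hH.symm]
    congr 1
    refine Finset.sum_congr rfl fun i _ => ?_
    rw [map_mul, ← (hHM i).symm, map_intCast]
  · refine Differentiable.neg ?_
    exact Differentiable.fun_sum fun i _ => (hFM i).const_mul _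
  · have hre : ∀ (z : ℂ) (n : ℤ), ((n : ℂ) * z).re = (n : ℝ) * z.re := by
      intro z n
      have : (n : ℂ) = ((n : ℝ) : ℂ) := by push_cast; rfl
      rw [this, Complex.re_ofReal_mul]
    have h1 : ‖(twist N M χ).e γ v‖ ^ 2 = ‖N.e γ v‖ ^ 2 * ∏ i, (‖(M i).e γ v‖ ^ 2) ^ (-χ i) := by
      change ‖N.e γ v * ∏ i, (M i).e γ v ^ (-χ i)‖ ^ 2 = _
      rw [norm_mul, mul_pow, norm_prod, ← Finset.prod_pow]
      congr 1
      refine Finset.prod_congr rfl fun i _ => ?_
      rw [norm_zpow, ← zpow_natCast, ← zpow_natCast, ← zpow_mul, ← zpow_mul, mul_comm]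
    have hexp : ∀ (x : ℝ) (n : ℤ), Real.exp x ^ n = Real.exp (n * x) := by
      intro x n
      rcases n with n | n
      · simp only [Int.ofNat_eq_natCast, zpow_natCast, Int.cast_natCast]
        rw [← Real.exp_nat_mul]
      · rw [zpow_negSucc, ← Real.exp_nat_mul, ← Real.exp_neg]
        congr 1
        push_cast
        ring
    rw [h1, hFe]
    simp only [hFMe, hexp]
    rw [← Real.exp_sum, ← Real.exp_add]
    congr 1
    simp only [twistForm, Complex.sub_re, Complex.add_re, Complex.neg_re, Complex.re_sum, hre]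
    simp only [mul_sub, mul_add, Finset.sum_sub_distrib, Finset.sum_add_distrib, Finset.mul_sum]
    push_cast
    simp only [neg_mul, Finset.sum_neg_distrib]
    have e1 : ∀ v : V, ∑ i, (χ i : ℝ) * (Real.pi * ((HM i) v v).re) =
        ∑ i, Real.pi * ((χ i : ℝ) * ((HM i) v v).re) := fun v =>
      Finset.sum_congr rfl fun i _ => by ring
    have e2 : ∀ v : V, ∑ i, (χ i : ℝ) * (2 * ((FM i) v).re) =
        ∑ i, 2 * ((χ i : ℝ) * ((FM i) v).re) := fun v =>
      Finset.sum_congr rfl fun i _ => by ring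
    rw [e1, e1, e2, e2]
    simp only [mul_neg, Finset.mul_sum]
    ring

/-- The Chern form of a multiple. -/
theorem mult_chern {D : WeilClass Γ} {H : V → V → ℂ} (hc : D.HasChernForm H) (d : ℕ) :
    (D.mult d).HasChernForm (fun v w => (d : ℂ) * H v w) := by
  obtain ⟨hH, F, hF, hFe⟩ := hc
  have hre : ∀ (z : ℂ) (n : ℕ), ((n : ℂ) * z).re = (n : ℝ) * z.re := by
    intro z n
    have : (n : ℂ) = ((n : ℝ) : ℂ) := by push_cast; rfl
    rw [this, Complex.re_ofReal_mul]
  refine ⟨⟨fun u v w => ?_, fun a v w => ?_, fun v w => ?_⟩, fun v => (d : ℂ) * F v,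
    hF.const_mul _, fun γ v => ?_⟩
  · rw [hH.add_left, mul_add]
  · rw [hH.smul_left]
    ring
  · rw [map_mul, ← hH.symm, Complex.conj_natCast]
  · have h1 : ‖(D.mult d).e γ v‖ ^ 2 = (‖D.e γ v‖ ^ 2) ^ d := by
      change ‖D.e γ v ^ d‖ ^ 2 = _
      rw [norm_pow, ← pow_mul, ← pow_mul, mul_comm]
    rw [h1, hFe, ← Real.exp_nat_mul]
    simp only [hre]
    congr 1
    ring

variable {k : ℕ} {ι : Type*} {r : ι → Fin k → ℤ} {S : Finset (Finset ι)} {M : Fin k → WeilClass Γ}
  {ρ : V → ℂ}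

/-- A product of entire functions which do not vanish identically. -/
theorem prod_ne_zero' {α : Type*} (t : Finset α) (f : α → V → ℂ)
    (hf : ∀ a ∈ t, Differentiable ℂ (f a)) (h0 : ∀ a ∈ t, ∃ v, f a v ≠ 0) :
    ∃ v, ∏ a ∈ t, f a v ≠ 0 := by
  classical
  induction t using Finset.induction_on with
  | empty => exact ⟨0, by simp⟩
  | insert a t ha ih =>
    obtain ⟨v, h1, h2⟩ := exists_common (hf a (Finset.mem_insert_self a t))
      (diff_prod t f fun i hi => hf i (Finset.mem_insert_of_mem hi))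
      (h0 a (Finset.mem_insert_self a t))
      (ih (fun i hi => hf i (Finset.mem_insert_of_mem hi))
        fun i hi => h0 i (Finset.mem_insert_of_mem hi))
    exact ⟨v, by rw [Finset.prod_insert ha]; exact mul_ne_zero h1 h2⟩

/-- A multiple of the restriction to the section given by the cone `s` is log pluricanonical. -/
theorem exists_pluri (hS : IsCompleteFan r S) (P : CartierPair r S M ρ) (hLC : P.IsToricLC)
    (hf : ∀ s ∈ S, ∀ i, P.m - P.c i + ordAt P.β (r i) ≤ dot (P.u s) (r i)) {s : Finset ι}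
    (hs : s ∈ S) :
    ∃ d : ℕ, 1 ≤ d ∧ ∃ g : V → ℂ, Differentiable ℂ g ∧ (∃ v, g v ≠ 0) ∧
      IsLogPluri ((twist P.N M (P.u s)).mult d) (P.m * d) ρ g := by
  obtain ⟨n, hn1, hn⟩ := convex hS P hLC hf hs
  refine ⟨∑ χ, n χ, hn1, fun v => ∏ χ : P.β.support, P.β χ v ^ n χ,
    diff_prod _ _ fun χ _ => (P.holo χ).pow _, prod_ne_zero' _ _ (fun χ _ => (P.holo χ).pow _)
      fun χ _ => ?_, fun γ v => ?_⟩
  · obtain ⟨v, hv⟩ := Function.ne_iff.1 (Finsupp.mem_support_iff.1 χ.2)
    exact ⟨v, pow_ne_zero _ hv⟩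
  · change (∏ χ : P.β.support, P.β χ ((γ : V ≃ᵃ[ℂ] V) v) ^ n χ) * ρ v ^ (P.m * ∑ χ, n χ) =
      ((twist P.N M (P.u s)).e γ v) ^ (∑ χ, n χ) *
        LinearMap.det ((γ : V ≃ᵃ[ℂ] V).linear : V →ₗ[ℂ] V) ^ (P.m * ∑ χ, n χ) *
        (∏ χ : P.β.support, P.β χ v ^ n χ) * ρ ((γ : V ≃ᵃ[ℂ] V) v) ^ (P.m * ∑ χ, n χ)
    have hp : ∀ z : ℂ, z ^ (P.m * ∑ χ, n χ) = ∏ χ : P.β.support, (z ^ P.m) ^ n χ := by
      intro z
      rw [Finset.prod_pow_eq_pow_sum, ← pow_mul]
    have he : ((twist P.N M (P.u s)).e γ v) ^ (∑ χ, n χ) =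
        ∏ χ : P.β.support, ((twist P.N M χ).e γ v) ^ n χ := by
      change (P.N.e γ v * ∏ i, (M i).e γ v ^ (-P.u s i)) ^ (∑ χ, n χ) =
        ∏ χ : P.β.support, (P.N.e γ v * ∏ i, (M i).e γ v ^ (-(χ : Fin k → ℤ) i)) ^ n χ
      simp only [mul_pow, Finset.prod_mul_distrib]
      rw [Finset.prod_pow_eq_pow_sum]
      congr 1
      simp only [← Finset.prod_pow]
      rw [Finset.prod_comm]
      refine Finset.prod_congr rfl fun i _ => ?_
      have h1 : ∀ χ : P.β.support, ((M i).e γ v ^ (-(χ : Fin k → ℤ) i)) ^ n χ =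
          (M i).e γ v ^ (-((n χ : ℤ) * (χ : Fin k → ℤ) i)) := by
        intro χ
        rw [← zpow_natCast, ← zpow_mul]
        congr 1
        ring
      have h2 : ∀ t : Finset P.β.support, ∏ χ ∈ t, (M i).e γ v ^ (-((n χ : ℤ) * (χ : Fin k → ℤ) i)) =
          (M i).e γ v ^ (-∑ χ ∈ t, ((n χ : ℤ) * (χ : Fin k → ℤ) i)) := by
        classical
        intro t
        induction t using Finset.induction_on with
        | empty => simp
        | insert a t ha ih =>
          rw [Finset.prod_insert ha, Finset.sum_insert ha, ih, neg_add,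
            zpow_add₀ ((M i).ne_zero γ v)]
      simp only [h1]
      rw [h2, hn i, ← zpow_natCast, ← zpow_mul]
      congr 1
      ring
    rw [hp, hp, hp, he, ← Finset.prod_mul_distrib, ← Finset.prod_mul_distrib,
      ← Finset.prod_mul_distrib, ← Finset.prod_mul_distrib]
    refine Finset.prod_congr rfl fun χ _ => ?_
    rw [← mul_pow, ← mul_pow, ← mul_pow, ← mul_pow, P.equivariant χ γ v]

end Pool.Agent.W2helper5.TB
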